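import Pool.Agent.N294.NF.Stm
import Pool.Agent.H712R2.MA.G

/-!
# The functional Mahler inequality for even log-concave functions: definitions and the bodies

For a symmetric convex `A ⊂ ℝⁿ` and an even concave `g ≥ 0` on `A` consider the symmetric body
`{(x,y) ∈ ℝⁿ × ℝᵐ : x ∈ A, |y_j| ≤ g(x)}`.
Adapted from `Pool/Agent/N294/NF` (helper294, helper127, helper282), where the fibres are simplices
and there is no symmetry.
-/

set_option autoImplicit false

open MeasureTheory Set Filter Topology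
open scoped ENNReal Matrix

namespace Pool.Agent.U330.EF

open Pool.Agent.N294.NF
open H712MA.GB (SBody plr)

/-- `A` symmetric and `g` even -/
structure CS {n : ℕ} (A : Set (Fin n → ℝ)) (g : (Fin n → ℝ) → ℝ) : Prop extends CG A g where
  symm : ∀ x ∈ A, -x ∈ A
  even : ∀ x ∈ A, g (-x) = g x

/-- the body over `A` whose fibres are the cubes `g(x) [-1,1]^m` -/
def KC {n : ℕ} (A : Set (Fin n → ℝ)) (g : (Fin n → ℝ) → ℝ) (m : ℕ) : Set (Fin (n + m) → ℝ) :=
  {z | (spl n m z).1 ∈ A ∧ ∀ j, |(spl n m z).2 j| ≤ g (spl n m z).1}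

/-- the constant -/
noncomputable def cs (n m : ℕ) : ℝ := 4 ^ n * m.factorial / (n + m).factorial

variable {n : ℕ} {A : Set (Fin n → ℝ)} {g : (Fin n → ℝ) → ℝ}

lemma KC_conv (h : CG A g) (m : ℕ) : Convex ℝ (KC A g m) := by
  intro x hx y hy a b ha hb hab
  obtain ⟨x1, x2⟩ := hx
  obtain ⟨y1, y2⟩ := hy
  have hc := h.conc _ x1 _ y1 a b ha hb hab
  have e : (spl n m (a • x + b • y)).1 = a • (spl n m x).1 + b • (spl n m y).1 := rfl
  have e2 : ∀ j, (spl n m (a • x + b • y)).2 j = a * (spl n m x).2 j + b * (spl n m y).2 j :=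
    fun j => rfl
  refine ⟨?_, fun j => ?_⟩
  · rw [e]; exact h.conv x1 y1 ha hb hab
  · rw [e, e2]
    have h1 := mul_le_mul_of_nonneg_left (x2 j) ha
    have h2 := mul_le_mul_of_nonneg_left (y2 j) hb
    refine (abs_add_le _ _).trans ?_
    rw [abs_mul, abs_mul, abs_of_nonneg ha, abs_of_nonneg hb]
    linarith

/-- `g` is bounded above on `A` -/
lemma g_bdd (h : CG A g) : ∃ G : ℝ, 0 ≤ G ∧ ∀ x ∈ A, g x ≤ G := by
  obtain ⟨r, hr, c, hc, hz⟩ := h.zero
  obtain ⟨M, hM⟩ := isBounded_iff_forall_norm_le.1 h.bdd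
  have h0 := hz 0 (fun i => by simpa using hr.le)
  set M' := max M 1 with hM'
  have hM0 : 0 < M' := lt_of_lt_of_le one_pos (le_max_right _ _)
  set s := r / (r + M') with hs
  have hs0 : 0 < s := by positivity
  refine ⟨g 0 / s, by have := hc.trans_le h0.2; positivity, fun x hx => ?_⟩
  have hxM : ‖x‖ ≤ M' := (hM x hx).trans (le_max_left _ _)
  have hs1 : s < 1 := by rw [hs, div_lt_one (by positivity)]; linarith
  have h1s : 0 < 1 - s := by linarith
  set u : Fin n → ℝ := -((s / (1 - s)) • x) with hu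
  have hur : ∀ i, |u i| ≤ r := by
    intro i
    have e1 : s / (1 - s) = r / M' := by
      have e2 : 1 - s = M' / (r + M') := by
        rw [hs, eq_div_iff (by positivity), sub_mul, div_mul_cancel₀ _ (by positivity)]
        ring
      rw [e2, hs, div_div_div_cancel_right₀ (by positivity)]
    rw [hu, Pi.neg_apply, abs_neg, Pi.smul_apply, smul_eq_mul, abs_mul,
      abs_of_pos (div_pos hs0 h1s), e1]
    have h2 : |x i| ≤ M' := (norm_le_pi_norm x i).trans hxM
    rw [div_mul_eq_mul_div, div_le_iff₀ hM0]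
    nlinarith
  obtain ⟨huA, hug⟩ := hz u hur
  have h2 := h.conc u huA x hx (1 - s) s h1s.le hs0.le (by ring)
  have e : (1 - s) • u + s • x = 0 := by
    rw [hu, smul_neg, smul_smul, mul_div_cancel₀ _ h1s.ne']
    simp
  rw [e] at h2
  have h3 : 0 ≤ (1 - s) * g u := mul_nonneg h1s.le (hc.le.trans hug)
  rw [le_div_iff₀ hs0]
  linarith

lemma KC_bdd (h : CG A g) (m : ℕ) : Bornology.IsBounded (KC A g m) := by
  obtain ⟨G, hG0, hG⟩ := g_bdd h
  obtain ⟨M, hM⟩ := isBounded_iff_forall_norm_le.1 h.bdd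
  rw [isBounded_iff_forall_norm_le]
  refine ⟨max M 0 + G, fun z hz => ?_⟩
  obtain ⟨z1, z2⟩ := hz
  have hg := hG _ z1
  rw [pi_norm_le_iff_of_nonneg (by positivity)]
  intro i
  refine Fin.addCases (fun i => ?_) (fun j => ?_) i
  · have h1 := (norm_le_pi_norm (spl n m z).1 i).trans (hM _ z1)
    have e : (spl n m z).1 i = z (Fin.castAdd m i) := rfl
    rw [e] at h1
    have := le_max_left M 0
    linarith
  · have e : (spl n m z).2 j = z (Fin.natAdd n j) := rfl
    rw [← e, Real.norm_eq_abs]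
    have hmx : 0 ≤ max M 0 := le_max_right _ _
    have := z2 j
    linarith

lemma KC_int (h : CG A g) (m : ℕ) : (0 : Fin (n + m) → ℝ) ∈ interior (KC A g m) := by
  obtain ⟨r, hr, c, hc, hz⟩ := h.zero
  rw [mem_interior_iff_mem_nhds, Metric.mem_nhds_iff]
  refine ⟨min r c, by positivity, fun z hzb => ?_⟩
  rw [Metric.mem_ball, dist_zero_right, pi_norm_lt_iff (by positivity)] at hzb
  obtain ⟨h1, h2⟩ := hz (spl n m z).1 fun i =>
    ((hzb (Fin.castAdd m i)).trans_le (min_le_left _ _)).le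
  have h3 : ∀ j, |(spl n m z).2 j| ≤ c := fun j =>
    ((hzb (Fin.natAdd n j)).trans_le (min_le_right _ _)).le
  exact ⟨h1, fun j => (h3 j).trans h2⟩

lemma KC_symm (h : CS A g) (m : ℕ) : ∀ z ∈ KC A g m, -z ∈ KC A g m := by
  rintro z ⟨h1, h2⟩
  refine ⟨?_, fun j => ?_⟩
  · rw [spl_neg]; exact h.symm _ h1
  · have e : (spl n m (-z)).2 j = -(spl n m z).2 j := rfl
    rw [e, abs_neg, spl_neg, Prod.fst_neg, h.even _ h1]
    exact h2 j

theorem KC_body (h : CS A g) (m : ℕ) : SBody (closure (KC A g m)) := by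
  refine ⟨(KC_bdd h.toCG m).isCompact_closure, (KC_conv h.toCG m).closure,
    ⟨0, interior_mono subset_closure (KC_int h.toCG m)⟩, fun x hx => ?_⟩
  have h1 : closure (KC A g m) ⊆ (fun x => -x) ⁻¹' closure (KC A g m) :=
    closure_minimal (fun z hz => subset_closure (KC_symm h m z hz))
      (isClosed_closure.preimage continuous_neg)
  exact h1 hx

/-! ### the volume of the body -/

lemma vol_cube (m : ℕ) {t : ℝ} (ht : 0 ≤ t) :
    volume {y : Fin m → ℝ | ∀ j, |y j| ≤ t} = ENNReal.ofReal (2 ^ m) * ENNReal.ofReal (t ^ m) := by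
  have h1 : {y : Fin m → ℝ | ∀ j, |y j| ≤ t} = Icc (fun _ => -t) (fun _ => t) := by
    ext y
    simp only [mem_ofPred_eq, mem_Icc, Pi.le_def, abs_le]
    exact forall_and
  rw [h1, Real.volume_Icc_pi]
  simp only [sub_neg_eq_add, Finset.prod_const, Finset.card_univ, Fintype.card_fin]
  rw [← ENNReal.ofReal_pow (by positivity), ← ENNReal.ofReal_mul (by positivity), ← mul_pow]
  congr 2
  ring

theorem KC_vol (h : CG A g) (m : ℕ) :
    volume (closure (KC A g m)) ≤ ENNReal.ofReal (2 ^ m) *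
      ∫⁻ x, A.indicator (fun x => ENNReal.ofReal (g x ^ m)) x := by
  have h0 : volume (closure (KC A g m)) ≤ volume (interior (KC A g m)) := by
    rw [closure_eq_interior_union_frontier]
    refine (measure_union_le _ _).trans ?_
    rw [(KC_conv h m).addHaar_frontier volume, add_zero]
  refine h0.trans ?_
  set O : Set ((Fin n → ℝ) × (Fin m → ℝ)) := (splE n m).symm ⁻¹' interior (KC A g m) with hO
  have hOm : MeasurableSet O := (splE n m).symm.measurable isOpen_interior.measurableSet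
  have h1' : volume (interior (KC A g m)) = volume O := by
    rw [hO, (splE_mp (a := n) (b := m)).symm.measure_preimage_equiv]
  rw [h1', Measure.volume_eq_prod, Measure.prod_apply hOm,
    ← lintegral_const_mul' _ _ ENNReal.ofReal_ne_top]
  refine lintegral_mono fun x => ?_
  by_cases hx : x ∈ A
  · have h4 : Prod.mk x ⁻¹' O ⊆ {y : Fin m → ℝ | ∀ j, |y j| ≤ g x} := by
      intro y hy
      have h5 : (splE n m).symm (x, y) ∈ KC A g m := interior_subset hy
      have h6 : spl n m ((splE n m).symm (x, y)) = (x, y) := by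
        rw [← splE_apply, MeasurableEquiv.apply_symm_apply]
      have h7 := h5.2
      rw [h6] at h7
      exact h7
    refine (measure_mono h4).trans (le_of_eq ?_)
    rw [indicator_of_mem hx, vol_cube m (h.nonneg x hx)]
  · have h4 : Prod.mk x ⁻¹' O = ∅ := by
      rw [eq_empty_iff_forall_notMem]
      intro y hy
      have h5 : (splE n m).symm (x, y) ∈ KC A g m := interior_subset hy
      have h6 : spl n m ((splE n m).symm (x, y)) = (x, y) := by
        rw [← splE_apply, MeasurableEquiv.apply_symm_apply]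
      have h7 := h5.1
      rw [h6] at h7
      exact hx h7
    show volume (Prod.mk x ⁻¹' O) ≤ _
    rw [h4, measure_empty]
    exact zero_le

/-! ### the volume of the polar body -/

lemma vol_cross (m : ℕ) (hm : 1 ≤ m) (t : ℝ) :
    volume {v : Fin m → ℝ | ∑ j, |v j| ≤ t} ≤
      ENNReal.ofReal (2 ^ m / m.factorial) * ENNReal.ofReal t ^ m := by
  have : Nonempty (Fin m) := ⟨⟨0, hm⟩⟩
  have h := MeasureTheory.volume_sum_rpow_le (ι := Fin m) (p := 1) le_rfl t
  simp only [Real.rpow_one, div_one, Fintype.card_fin] at h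
  rw [h, mul_comm]
  have e1 : Real.Gamma (1 + 1) = 1 := by
    rw [show (1 : ℝ) + 1 = 2 by norm_num]
    exact Real.Gamma_two
  have e2 : Real.Gamma ((m : ℝ) + 1) = m.factorial := Real.Gamma_nat_eq_factorial m
  rw [e1, e2, mul_one]

/-- the polar body in product coordinates -/
def QC (A : Set (Fin n → ℝ)) (g : (Fin n → ℝ) → ℝ) (m : ℕ) : Set ((Fin n → ℝ) × (Fin m → ℝ)) :=
  {p | ∀ x ∈ A, 0 < g x → x ⬝ᵥ p.1 + g x * ∑ j, |p.2 j| ≤ 1}

lemma QC_closed (m : ℕ) : IsClosed (QC A g m) := by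
  have h1 : QC A g m = ⋂ x ∈ {x | x ∈ A ∧ 0 < g x}, {p : (Fin n → ℝ) × (Fin m → ℝ) |
      x ⬝ᵥ p.1 + g x * ∑ j, |p.2 j| ≤ 1} := by
    ext p
    simp only [QC, mem_iInter, mem_ofPred_eq]
    constructor
    · intro h x hx
      exact h x hx.1 hx.2
    · intro h x hx hg
      exact h x ⟨hx, hg⟩
  rw [h1]
  refine isClosed_biInter fun x _ => isClosed_le ?_ continuous_const
  unfold dotProduct
  fun_prop

lemma plr_sub {m : ℕ} : plr (closure (KC A g m)) ⊆ splE n m ⁻¹' QC A g m := by
  intro v hv x hx hg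
  rw [splE_apply]
  set z : Fin (n + m) → ℝ := Fin.append x
    (fun j => g x * (if 0 ≤ (spl n m v).2 j then 1 else -1)) with hz
  have hz1 : spl n m z = (x, fun j => g x * (if 0 ≤ (spl n m v).2 j then 1 else -1)) :=
    spl_append _ _
  have hzK : z ∈ KC A g m := by
    refine ⟨?_, fun j => ?_⟩
    · rw [hz1]; exact hx
    · rw [hz1]
      simp only
      split_ifs
      · rw [mul_one, abs_of_pos hg]
      · rw [mul_neg, mul_one, abs_neg, abs_of_pos hg]
  have h3 := hv z (subset_closure hzK)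
  rw [dot_spl, hz1] at h3
  have h4 : (fun j => g x * (if 0 ≤ (spl n m v).2 j then 1 else -1)) ⬝ᵥ (spl n m v).2 =
      g x * ∑ j, |(spl n m v).2 j| := by
    simp only [dotProduct]
    rw [Finset.mul_sum]
    refine Finset.sum_congr rfl fun j _ => ?_
    split_ifs with h
    · rw [abs_of_nonneg h]; ring
    · rw [abs_of_neg (not_le.1 h)]; ring
  simp only at h3
  rw [h4] at h3
  exact h3

theorem plr_vol (h : CG A g) {m : ℕ} (hm : 1 ≤ m) :
    volume (plr (closure (KC A g m))) ≤ ENNReal.ofReal (2 ^ m / m.factorial) *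
      ∫⁻ w, gp A g w ^ m := by
  have h0 : volume (plr (closure (KC A g m))) ≤ ∫⁻ w, volume (Prod.mk w ⁻¹' QC A g m) := by
    refine (measure_mono plr_sub).trans ?_
    rw [(splE_mp (a := n) (b := m)).measure_preimage_equiv, Measure.volume_eq_prod,
      Measure.prod_apply (QC_closed m).measurableSet]
  refine h0.trans ?_
  rw [← lintegral_const_mul' _ _ ENNReal.ofReal_ne_top]
  refine lintegral_mono fun w => ?_
  obtain ⟨r, hr, c, hc, hz⟩ := h.zero
  have hx0 := hz 0 (fun i => by simpa using hr.le)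
  have hne : Nonempty {x : Fin n → ℝ // x ∈ A ∧ 0 < g x} := ⟨⟨0, hx0.1, hc.trans_le hx0.2⟩⟩
  have hmono : Monotone (fun t : ℝ≥0∞ => ENNReal.ofReal (2 ^ m / m.factorial) * t ^ m) := by
    intro s t hst
    exact mul_le_mul_right (pow_le_pow_left' hst m) _
  have hcont : Continuous (fun t : ℝ≥0∞ => ENNReal.ofReal (2 ^ m / m.factorial) * t ^ m) :=
    (ENNReal.continuous_const_mul ENNReal.ofReal_ne_top).comp (ENNReal.continuous_pow m)
  have h3 : ENNReal.ofReal (2 ^ m / m.factorial) * gp A g w ^ m =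
      ⨅ x : {x : Fin n → ℝ // x ∈ A ∧ 0 < g x}, ENNReal.ofReal (2 ^ m / m.factorial) *
        ENNReal.ofReal ((1 - x.1 ⬝ᵥ w) / g x.1) ^ m :=
    hmono.map_ciInf_of_continuousAt hcont.continuousAt (OrderBot.bddBelow _)
  rw [h3]
  refine le_iInf fun x => ?_
  refine (measure_mono ?_).trans (vol_cross m hm ((1 - x.1 ⬝ᵥ w) / g x.1))
  intro v hv
  have h5 := hv x.1 x.2.1 x.2.2
  simp only at h5
  show ∑ j, |v j| ≤ _
  rw [le_div_iff₀ x.2.2]
  linarith

end Pool.Agent.U330.EF
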